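import Mathlib
import Pool.Agent.Q142.Expl
import Pool.Agent.Q142.Vert

set_option autoImplicit false

namespace Pool.Agent.Results.MP_1e46c9_co.FreeSum

open Q142

variable {N : ℕ}

/-- The graph (1-skeleton) of a polytope: the vertices, with two distinct vertices adjacent when
the segment joining them is a face. -/
def graph {n : ℕ} (P : Set (Sp n)) : SimpleGraph (vertices P) where
  Adj v w := v ≠ w ∧ IsExposed ℝ P (segment ℝ v.1 w.1)
  symm := ⟨fun v w h => ⟨h.1.symm, by rw [segment_symm]; exact h.2⟩⟩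
  loopless := ⟨fun v h => h.1 rfl⟩

/-- `Q` is a pyramid with basis `P`. -/
def IsPyramid (P Q : Set (Sp N)) : Prop :=
  ∃ a : Sp N, a ∉ affineSpan ℝ P ∧ Q = convexHull ℝ (insert a P)

/-- `Q` is an `m`-fold pyramid with basis `P`. -/
def IsIteratedPyramid : ℕ → Set (Sp N) → Set (Sp N) → Prop
  | 0, P, Q => Q = P
  | m + 1, P, Q => ∃ R, IsIteratedPyramid m P R ∧ IsPyramid R Q

/-- the face of a hull cut out by a functional -/
lemma face_eq {S : Set (Sp N)} (l : StrongDual ℝ (Sp N)) (M : ℝ) (hle : ∀ y ∈ S, l y ≤ M) :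
    {y | y ∈ convexHull ℝ S ∧ l y = M} = convexHull ℝ {y | y ∈ S ∧ l y = M} := by
  have hexp := exposed_le (convexHull ℝ S) l M (le_on_hull l M hle)
  rcases Set.eq_empty_or_nonempty {y | y ∈ convexHull ℝ S ∧ l y = M} with h | h
  · rw [h]
    have : {y | y ∈ S ∧ l y = M} = ∅ := by
      rw [Set.eq_empty_iff_forall_notMem]
      rintro y ⟨hy, hy'⟩
      have : y ∈ {y | y ∈ convexHull ℝ S ∧ l y = M} := ⟨subset_convexHull ℝ _ hy, hy'⟩
      rw [h] at this
      exact this
    rw [this, convexHull_empty]
  · obtain ⟨-, -, -, -, h3⟩ := face_data hexp h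
    conv_lhs => rw [h3]
    congr 1
    ext y
    constructor
    · rintro ⟨h4, h5⟩
      exact ⟨h4, h5.2⟩
    · rintro ⟨h4, h5⟩
      exact ⟨h4, subset_convexHull ℝ _ h4, h5⟩

lemma exposed_of_le {S : Set (Sp N)} (l : StrongDual ℝ (Sp N)) (M : ℝ) (hle : ∀ y ∈ S, l y ≤ M) :
    IsExposed ℝ (convexHull ℝ S) (convexHull ℝ {y | y ∈ S ∧ l y = M}) := by
  rw [← face_eq l M hle]
  exact exposed_le _ l M (le_on_hull l M hle)

/-- a vertex of a hull belongs to the generating set -/
lemma vertex_mem {S : Set (Sp N)} {v : Sp N} (hv : v ∈ vertices (convexHull ℝ S)) : v ∈ S := by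
  obtain ⟨-, -, -, -, h3⟩ := face_data hv (Set.singleton_nonempty v)
  by_contra hvS
  have : S ∩ {v} = ∅ := by
    rw [Set.eq_empty_iff_forall_notMem]
    rintro y ⟨hy, hy'⟩
    rw [Set.mem_singleton_iff.1 hy'] at hy
    exact hvS hy
  rw [this, convexHull_empty] at h3
  exact Set.singleton_ne_empty v h3

/-- faces of a larger set restrict -/
lemma exposed_restrict {X P F : Set (Sp N)} (hPX : P ⊆ X) (hF : IsExposed ℝ X F) (hFP : F ⊆ P) :
    IsExposed ℝ P F := by
  intro hne
  obtain ⟨l, hl⟩ := hF hne
  refine ⟨l, ?_⟩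
  obtain ⟨x0, hx0⟩ := hne
  have hx0' := hx0
  rw [hl] at hx0'
  ext y
  constructor
  · intro hy
    have hy' := hy
    rw [hl] at hy'
    exact ⟨hFP hy, fun z hz => hy'.2 z (hPX hz)⟩
  · rintro ⟨hy, hy'⟩
    rw [hl]
    refine ⟨hPX hy, fun z hz => (hx0'.2 z hz).trans (hy' x0 (hFP hx0))⟩

/-- functionals on `P` extend with prescribed behaviour at the extra points `c` -/
def Ext {m : ℕ} (P : Set (Sp N)) (p0 : Sp N) (c : Fin m → Sp N) : Prop :=
  ∀ (l : StrongDual ℝ (Sp N)) (M : ℝ), (∀ y ∈ P, l y ≤ M) → l p0 < M →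
    ∀ J : Finset (Fin m), J ≠ Finset.univ → ∃ (l' : StrongDual ℝ (Sp N)) (κ : ℝ),
      (∀ y ∈ P, l' y = l y + κ) ∧ (∀ j ∈ J, l' (c j) = M + κ) ∧ ∀ j ∉ J, l' (c j) < M + κ

/-- The join of a graph with the complete graph on `m` vertices. -/
def joinK {V : Type} (G : SimpleGraph V) (m : ℕ) : SimpleGraph (V ⊕ Fin m) where
  Adj
    | Sum.inl v, Sum.inl w => G.Adj v w
    | Sum.inl _, Sum.inr _ => True
    | Sum.inr _, Sum.inl _ => True
    | Sum.inr i, Sum.inr j => i ≠ j
  symm := ⟨by
    rintro (v | i) (w | j) h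
    · exact h.symm
    · trivial
    · trivial
    · exact Ne.symm h⟩
  loopless := ⟨by
    rintro (v | i) h
    · exact G.irrefl h
    · exact h rfl⟩

section good

variable {m : ℕ} {P : Set (Sp N)} {p0 : Sp N} {c : Fin m → Sp N}

lemma ext_exposed (hE : Ext P p0 c) (l : StrongDual ℝ (Sp N)) (M : ℝ) (hle : ∀ y ∈ P, l y ≤ M)
    (hp0 : l p0 < M) (J : Finset (Fin m)) (hJ : J ≠ Finset.univ) :
    IsExposed ℝ (convexHull ℝ (P ∪ Set.range c))
      (convexHull ℝ ({y | y ∈ P ∧ l y = M} ∪ c '' (J : Set (Fin m)))) := by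
  obtain ⟨l', κ, h1, h2, h3⟩ := hE l M hle hp0 J hJ
  have hle' : ∀ y ∈ P ∪ Set.range c, l' y ≤ M + κ := by
    rintro y (hy | ⟨j, rfl⟩)
    · rw [h1 y hy]; linarith [hle y hy]
    · by_cases hj : j ∈ J
      · exact (h2 j hj).le
      · exact (h3 j hj).le
  have h4 := exposed_of_le l' (M + κ) hle'
  have h5 : {y | y ∈ P ∪ Set.range c ∧ l' y = M + κ} =
      {y | y ∈ P ∧ l y = M} ∪ c '' (J : Set (Fin m)) := by
    ext y
    constructor
    · rintro ⟨hy | ⟨j, rfl⟩, hy'⟩
      · left
        rw [h1 y hy] at hy'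
        exact ⟨hy, by linarith⟩
      · right
        by_cases hj : j ∈ J
        · exact ⟨j, hj, rfl⟩
        · exact absurd hy' (h3 j hj).ne
    · rintro (⟨hy, hy'⟩ | ⟨j, hj, rfl⟩)
      · exact ⟨Or.inl hy, by rw [h1 y hy, hy']⟩
      · exact ⟨Or.inr ⟨j, rfl⟩, h2 j hj⟩
  rwa [h5] at h4

/-- average of the vertices -/
noncomputable def center (P : Set (Sp N)) : Sp N :=
  ((vertices P).ncard : ℝ)⁻¹ • ∑ᶠ v ∈ vertices P, v

lemma center_lt (hP : IsPolytope P) {l : StrongDual ℝ (Sp N)} {M : ℝ} (hle : ∀ y ∈ P, l y ≤ M)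
    {u : Sp N} (hu : u ∈ vertices P) (hlt : l u < M) : l (center P) < M := by
  have hfin := (polytope_vertices hP).1
  have hpos : (0 : ℝ) < (vertices P).ncard := by
    have : 0 < (vertices P).ncard := (Set.ncard_pos hfin).2 ⟨u, hu⟩
    exact_mod_cast this
  unfold center
  rw [finsum_mem_eq_finite_toFinset_sum _ hfin, map_smul, map_sum, smul_eq_mul,
    inv_mul_lt_iff₀ hpos]
  have h1 : ((vertices P).ncard : ℝ) * M = ∑ v ∈ hfin.toFinset, M := by
    rw [Finset.sum_const, nsmul_eq_mul, Set.ncard_eq_toFinset_card _ hfin]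
  rw [h1]
  apply Finset.sum_lt_sum
  · intro v hv
    exact hle v (mem_of_vertex (by simpa using hv))
  · exact ⟨u, by simpa using hu, hlt⟩

lemma center_mem (hP : IsPolytope P) (hne : P.Nonempty) : center P ∈ P := by
  have hfin := (polytope_vertices hP).1
  have hne' : (vertices P).Nonempty := by
    rw [Set.nonempty_iff_ne_empty]
    intro h
    have := (polytope_vertices hP).2
    rw [h, convexHull_empty] at this
    rw [← this] at hne
    exact Set.not_nonempty_empty hne
  have hpos : (0 : ℝ) < (vertices P).ncard := by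
    have : 0 < (vertices P).ncard := (Set.ncard_pos hfin).2 hne'
    exact_mod_cast this
  have hPc : Convex ℝ P := by
    obtain ⟨S, rfl⟩ := hP
    exact convex_convexHull ℝ _
  unfold center
  rw [finsum_mem_eq_finite_toFinset_sum _ hfin, Finset.smul_sum]
  apply hPc.sum_mem
  · intro v _
    exact inv_nonneg.2 hpos.le
  · rw [Finset.sum_const, nsmul_eq_mul, ← Set.ncard_eq_toFinset_card _ hfin]
    exact mul_inv_cancel₀ hpos.ne'
  · intro v hv
    exact mem_of_vertex (by simpa using hv)

/-- a polytope of dimension at least two has a vertex off any given segment joining vertices -/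
lemma third_vertex (hP : IsPolytope P) (hd : 2 ≤ dim P) (v w : Sp N) :
    ∃ u ∈ vertices P, u ≠ v ∧ u ≠ w := by
  by_contra hcon
  push Not at hcon
  obtain ⟨hfin, hhull⟩ := polytope_vertices hP
  have hsub : vertices P ⊆ {v, w} := by
    intro u hu
    by_cases h : u = v
    · left; exact h
    · right; exact hcon u hu h
  have h2 : (vertices P).ncard ≤ 1 + 1 := by
    refine (Set.ncard_le_ncard hsub).trans ?_
    have := Set.ncard_insert_le v ({w} : Set (Sp N))
    rw [Set.ncard_singleton] at this
    exact this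
  have h3 := dim_le_of_ncard hfin h2
  rw [hhull] at h3
  omega

/-- vertices only lie on segments as endpoints -/
lemma vertex_notMem_segment {u v w : Sp N} (hu : u ∈ vertices P) (hv : v ∈ P) (hw : w ∈ P)
    (huv : u ≠ v) (huw : u ≠ w) : u ∉ segment ℝ v w := by
  intro hmem
  obtain ⟨l, hl⟩ := vertex_functional hu
  obtain ⟨a, b, ha, hb, hab, rfl⟩ := hmem
  have h1 := hl v hv (Ne.symm huv)
  have h2 := hl w hw (Ne.symm huw)
  have hlin : l (a • v + b • w) = a * l v + b * l w := by
    rw [map_add, map_smul, map_smul]; rfl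
  set t := l (a • v + b • w) with ht
  have h3 : a * l v ≤ a * t := mul_le_mul_of_nonneg_left h1.le ha
  have h4 : b * l w ≤ b * t := mul_le_mul_of_nonneg_left h2.le hb
  have h5 : a * t + b * t = t := by rw [← add_mul, hab, one_mul]
  rcases eq_or_lt_of_le ha with ha0 | ha0
  · have hb1 : b = 1 := by linarith
    rw [← ha0, hb1] at hlin
    linarith
  · have := mul_lt_mul_of_pos_left h1 ha0
    linarith

lemma hull_pair (v w : Sp N) : convexHull ℝ ({v, w} : Set (Sp N)) = segment ℝ v w :=
  convexHull_pair v w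

theorem good_iso (hP : IsPolytope P) (hd : 2 ≤ dim P) (hm : 3 ≤ m)
    (hE : Ext P (center P) c) :
    Nonempty (graph (convexHull ℝ (P ∪ Set.range c)) ≃g joinK (graph P) m) := by
  classical
  set X := convexHull ℝ (P ∪ Set.range c) with hX
  obtain ⟨hfin, hhull⟩ := polytope_vertices hP
  have hPc : Convex ℝ P := by
    obtain ⟨S, rfl⟩ := hP
    exact convex_convexHull ℝ _
  have hPX : P ⊆ X := fun y hy => subset_convexHull ℝ _ (Or.inl hy)
  have hJ0 : (∅ : Finset (Fin m)) ≠ Finset.univ := by
    intro h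
    have := congrArg Finset.card h
    simp at this
    omega
  have hJ1 : ∀ j, ({j} : Finset (Fin m)) ≠ Finset.univ := by
    intro j h
    have := congrArg Finset.card h
    simp at this
    omega
  have hJ2 : ∀ i j, ({i, j} : Finset (Fin m)) ≠ Finset.univ := by
    intro i j h
    have h1 := congrArg Finset.card h
    have h2 := Finset.card_le_two (a := i) (b := j)
    simp only [Finset.card_univ, Fintype.card_fin] at h1
    omega
  -- vertices of `P`
  have hvP : ∀ v ∈ vertices P, v ∈ vertices X := by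
    intro v hv
    obtain ⟨l, hl⟩ := vertex_functional hv
    have hle : ∀ y ∈ P, l y ≤ l v := by
      intro y hy
      by_cases h : y = v
      · rw [h]
      · exact (hl y hy h).le
    obtain ⟨u, hu, huv, -⟩ := third_vertex hP hd v v
    have h1 := ext_exposed hE l (l v) hle (center_lt hP hle hu (hl u (mem_of_vertex hu) huv)) ∅ hJ0
    have h2 : {y | y ∈ P ∧ l y = l v} ∪ c '' ((∅ : Finset (Fin m)) : Set (Fin m)) = {v} := by
      ext y
      simp only [Finset.coe_empty, Set.image_empty, Set.union_empty, Set.mem_ofPred_eq,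
        Set.mem_singleton_iff]
      constructor
      · rintro ⟨hy, hy'⟩
        by_contra h
        exact absurd hy' (hl y hy h).ne
      · rintro rfl
        exact ⟨mem_of_vertex hv, rfl⟩
    rw [h2, convexHull_singleton] at h1
    exact h1
  have hPle : ∀ y ∈ P, (0 : StrongDual ℝ (Sp N)) y ≤ 1 := by
    intro y _
    simp
  have hc0 : (0 : StrongDual ℝ (Sp N)) (center P) < 1 := by simp
  have hempty : {y | y ∈ P ∧ (0 : StrongDual ℝ (Sp N)) y = 1} = ∅ := by
    ext y
    simp
  have hcX : ∀ j, c j ∈ vertices X := by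
    intro j
    have h1 := ext_exposed hE 0 1 hPle hc0 {j} (hJ1 j)
    rw [hempty, Set.empty_union, Finset.coe_singleton, Set.image_singleton,
      convexHull_singleton] at h1
    exact h1
  have hcP : ∀ j, c j ∉ P := by
    intro j hj
    obtain ⟨l', κ, h1, h2, -⟩ := hE 0 1 hPle hc0 {j} (hJ1 j)
    have h3 := h1 _ hj
    have h4 := h2 j (by simp)
    simp at h3
    linarith
  have hcinj : Function.Injective c := by
    intro i j hij
    by_contra hne
    obtain ⟨l', κ, -, h2, h3⟩ := hE 0 1 hPle hc0 {j} (hJ1 j)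
    have h4 := h2 j (by simp)
    have h5 := h3 i (by simpa using hne)
    rw [hij] at h5
    linarith
  -- edges
  have hedge : ∀ v ∈ vertices P, ∀ w ∈ vertices P, v ≠ w →
      (IsExposed ℝ X (segment ℝ v w) ↔ IsExposed ℝ P (segment ℝ v w)) := by
    intro v hv w hw hvw
    have hseg : segment ℝ v w ⊆ P := hPc.segment_subset (mem_of_vertex hv) (mem_of_vertex hw)
    constructor
    · intro h
      exact exposed_restrict hPX h hseg
    · intro h
      have hne : (segment ℝ v w).Nonempty := ⟨v, left_mem_segment ℝ v w⟩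
      have h' := h
      rw [← hhull] at h'
      obtain ⟨l, M, h1, h2, -⟩ := face_data h' hne
      rw [hhull] at h1 h2
      obtain ⟨u, hu, huv, huw⟩ := third_vertex hP hd v w
      have hunot := vertex_notMem_segment hu (mem_of_vertex hv) (mem_of_vertex hw) huv huw
      have hult : l u < M := by
        refine lt_of_le_of_ne (h1 u (mem_of_vertex hu)) fun h3 => hunot ?_
        rw [h2]
        exact ⟨mem_of_vertex hu, h3⟩
      have h4 := ext_exposed hE l M h1 (center_lt hP h1 hu hult) ∅ hJ0
      have h5 : {y | y ∈ P ∧ l y = M} ∪ c '' ((∅ : Finset (Fin m)) : Set (Fin m)) =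
          segment ℝ v w := by
        rw [h2]; simp
      rw [h5, (convex_segment v w).convexHull_eq] at h4
      exact h4
  have hmix : ∀ v ∈ vertices P, ∀ j, IsExposed ℝ X (segment ℝ v (c j)) := by
    intro v hv j
    obtain ⟨l, hl⟩ := vertex_functional hv
    have hle : ∀ y ∈ P, l y ≤ l v := by
      intro y hy
      by_cases h : y = v
      · rw [h]
      · exact (hl y hy h).le
    obtain ⟨u, hu, huv, -⟩ := third_vertex hP hd v v
    have h1 := ext_exposed hE l (l v) hle (center_lt hP hle hu (hl u (mem_of_vertex hu) huv)) {j}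
      (hJ1 j)
    have h2 : {y | y ∈ P ∧ l y = l v} ∪ c '' (({j} : Finset (Fin m)) : Set (Fin m)) =
        {v, c j} := by
      ext y
      simp only [Finset.coe_singleton, Set.image_singleton, Set.mem_union, Set.mem_ofPred_eq,
        Set.mem_singleton_iff, Set.mem_insert_iff]
      constructor
      · rintro (⟨hy, hy'⟩ | hy)
        · left
          by_contra h
          exact absurd hy' (hl y hy h).ne
        · right; exact hy
      · rintro (rfl | hy)
        · left; exact ⟨mem_of_vertex hv, rfl⟩
        · right; exact hy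
    rw [h2, convexHull_pair] at h1
    exact h1
  have hcc : ∀ i j, IsExposed ℝ X (segment ℝ (c i) (c j)) := by
    intro i j
    have h1 := ext_exposed hE 0 1 hPle hc0 {i, j} (hJ2 i j)
    rw [hempty, Set.empty_union, Finset.coe_insert, Finset.coe_singleton, Set.image_pair,
      convexHull_pair] at h1
    exact h1
  -- the bijection of the vertices
  let f : vertices P ⊕ Fin m → vertices X :=
    Sum.elim (fun v => ⟨v.1, hvP v.1 v.2⟩) (fun j => ⟨c j, hcX j⟩)
  have hf : Function.Bijective f := by
    constructor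
    · rintro (v | i) (w | j) h
      · have h1 : (f (Sum.inl v)).1 = (f (Sum.inl w)).1 := congrArg Subtype.val h
        have h2 : v = w := Subtype.ext h1
        rw [h2]
      · have h1 : v.1 = c j := congrArg Subtype.val h
        exact absurd (h1 ▸ mem_of_vertex v.2) (hcP j)
      · have h1 : c i = w.1 := congrArg Subtype.val h
        exact absurd (h1.symm ▸ mem_of_vertex w.2) (hcP i)
      · have h1 : c i = c j := congrArg Subtype.val h
        rw [hcinj h1]
    · rintro ⟨v, hv⟩
      rcases vertex_mem hv with h | ⟨j, rfl⟩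
      · refine ⟨Sum.inl ⟨v, exposed_restrict hPX hv (Set.singleton_subset_iff.2 h)⟩, rfl⟩
      · exact ⟨Sum.inr j, rfl⟩
  let e : vertices P ⊕ Fin m ≃ vertices X := Equiv.ofBijective f hf
  have hadj : ∀ a b, (graph X).Adj (f a) (f b) ↔ (joinK (graph P) m).Adj a b := by
    rintro (v | i) (w | j)
    · show (f (Sum.inl v) ≠ f (Sum.inl w) ∧ IsExposed ℝ X (segment ℝ v.1 w.1)) ↔
        (v ≠ w ∧ IsExposed ℝ P (segment ℝ v.1 w.1))
      constructor
      · rintro ⟨h2, h3⟩
        have h4 : v ≠ w := fun h => h2 (by rw [h])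
        exact ⟨h4, (hedge _ v.2 _ w.2 (fun h => h4 (Subtype.ext h))).1 h3⟩
      · rintro ⟨h2, h3⟩
        exact ⟨fun h => h2 (Sum.inl.inj (hf.1 h)),
          (hedge _ v.2 _ w.2 (fun h => h2 (Subtype.ext h))).2 h3⟩
    · show (f (Sum.inl v) ≠ f (Sum.inr j) ∧ IsExposed ℝ X (segment ℝ v.1 (c j))) ↔ True
      refine iff_true_intro ⟨fun h => ?_, hmix _ v.2 j⟩
      have := hf.1 h
      simp at this
    · show (f (Sum.inr i) ≠ f (Sum.inl w) ∧ IsExposed ℝ X (segment ℝ (c i) w.1)) ↔ True
      refine iff_true_intro ⟨fun h => ?_, ?_⟩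
      · have := hf.1 h
        simp at this
      · rw [segment_symm]
        exact hmix _ w.2 i
    · show (f (Sum.inr i) ≠ f (Sum.inr j) ∧ IsExposed ℝ X (segment ℝ (c i) (c j))) ↔ i ≠ j
      constructor
      · rintro ⟨h1, -⟩ rfl
        exact h1 rfl
      · intro hij
        refine ⟨fun h => hij ?_, hcc i j⟩
        exact Sum.inr.inj (hf.1 h)
  exact ⟨⟨e.symm, by
    intro a b
    have h1 := hadj (e.symm a) (e.symm b)
    have h2 : ∀ x, f (e.symm x) = x := fun x => e.apply_symm_apply x
    rw [h2, h2] at h1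
    exact h1.symm⟩⟩

end good

/-- the apexes of an iterated pyramid with dual functionals -/
lemma iter_data {P : Set (Sp N)} (hPc : Convex ℝ P) {p0 : Sp N} (hp0 : p0 ∈ P) :
    ∀ (m : ℕ) (Q : Set (Sp N)), IsIteratedPyramid m P Q →
    ∃ (a : Fin m → Sp N) (φ : Fin m → StrongDual ℝ (Sp N)),
      Q = convexHull ℝ (P ∪ Set.range a) ∧ (∀ i, ∀ y ∈ P, φ i y = φ i p0) ∧
      ∀ i j, φ i (a j) - φ i p0 = if i = j then 1 else 0 := by
  intro m
  induction m with
  | zero =>
    intro Q hQ
    refine ⟨Fin.elim0, Fin.elim0, ?_, fun i => i.elim0, fun i => i.elim0⟩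
    rw [Set.range_eq_empty, Set.union_empty, hPc.convexHull_eq]
    exact hQ
  | succ m ih =>
    rintro Q ⟨R, hR, a, ha, rfl⟩
    obtain ⟨a', φ, hR', h1, h2⟩ := ih R hR
    have hPR : P ⊆ R := by
      rw [hR']
      exact fun y hy => subset_convexHull ℝ _ (Or.inl hy)
    have haR : ∀ j, a' j ∈ R := by
      intro j
      rw [hR']
      exact subset_convexHull ℝ _ (Or.inr ⟨j, rfl⟩)
    have hnot : a - p0 ∉ vectorSpan ℝ R := by
      intro hmem
      apply ha
      have h3 : p0 ∈ affineSpan ℝ R := subset_affineSpan ℝ _ (hPR hp0)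
      rw [← direction_affineSpan] at hmem
      exact (AffineSubspace.vsub_right_mem_direction_iff_mem h3 a).1 hmem
    obtain ⟨f, hf, hfker⟩ := Submodule.exists_le_ker_of_notMem hnot
    set ψ : StrongDual ℝ (Sp N) := LinearMap.toContinuousLinearMap ((f (a - p0))⁻¹ • f) with hψ
    have hψR : ∀ y ∈ R, ψ y = ψ p0 := by
      intro y hy
      have h3 : f (y - p0) = 0 := hfker (vsub_mem_vectorSpan ℝ hy (hPR hp0))
      have h4 : ψ y - ψ p0 = 0 := by
        rw [← map_sub]
        show (f (a - p0))⁻¹ • f (y - p0) = 0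
        rw [h3, smul_zero]
      linarith
    have hψa : ψ a - ψ p0 = 1 := by
      rw [← map_sub]
      show (f (a - p0))⁻¹ • f (a - p0) = 1
      rw [smul_eq_mul, inv_mul_cancel₀ hf]
    refine ⟨Fin.cons a a', Fin.cons ψ (fun i => φ i - (φ i a - φ i p0) • ψ), ?_, ?_, ?_⟩
    · rw [Fin.range_cons, hR']
      apply Set.Subset.antisymm
      · apply convexHull_min _ (convex_convexHull ℝ _)
        apply Set.insert_subset
        · exact subset_convexHull ℝ _ (Or.inr (Set.mem_insert _ _))
        · apply convexHull_mono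
          apply Set.union_subset_union_right
          exact Set.subset_insert _ _
      · apply convexHull_min _ (convex_convexHull ℝ _)
        rintro y (hy | hy | hy)
        · exact subset_convexHull ℝ _ (Or.inr (subset_convexHull ℝ _ (Or.inl hy)))
        · rw [hy]; exact subset_convexHull ℝ _ (Set.mem_insert _ _)
        · exact subset_convexHull ℝ _ (Or.inr (subset_convexHull ℝ _ (Or.inr hy)))
    · intro i
      refine Fin.cases ?_ ?_ i
      · intro y hy
        exact hψR y (hPR hy)
      · intro i y hy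
        simp only [Fin.cons_succ, sub_apply, smul_apply]
        rw [h1 i y hy, hψR y (hPR hy)]
    · intro i j
      refine Fin.cases ?_ ?_ i
      · refine Fin.cases ?_ ?_ j
        · simp only [Fin.cons_zero, if_true]
          exact hψa
        · intro j
          simp only [Fin.cons_zero, Fin.cons_succ]
          rw [hψR _ (haR j), sub_self, if_neg (Fin.succ_ne_zero j).symm]
      · intro i
        refine Fin.cases ?_ ?_ j
        · simp only [Fin.cons_zero, Fin.cons_succ, sub_apply,
            smul_apply, smul_eq_mul]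
          rw [if_neg (Fin.succ_ne_zero i)]
          have h5 : ψ a = ψ p0 + 1 := by linarith
          rw [h5]
          ring
        · intro j
          simp only [Fin.cons_succ, sub_apply,
            smul_apply, smul_eq_mul, Fin.succ_inj]
          rw [hψR _ (haR j)]
          have h6 := h2 i j
          linarith

section ext

variable {m : ℕ} {P : Set (Sp N)} {p0 : Sp N} {a : Fin m → Sp N}
  {φ : Fin m → StrongDual ℝ (Sp N)}

lemma sum_app (t : Fin m → ℝ) (y : Sp N) :
    (∑ j, t j • φ j) y = ∑ j, t j * φ j y := by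
  simp

lemma ext_pyramid (h1 : ∀ i, ∀ y ∈ P, φ i y = φ i p0)
    (h2 : ∀ i j, φ i (a j) - φ i p0 = if i = j then 1 else 0) : Ext P p0 a := by
  classical
  intro l M hle hp0 J hJ
  let t : Fin m → ℝ := fun j => if j ∈ J then M - l (a j) else M - l (a j) - 1
  refine ⟨l + ∑ j, t j • φ j, ∑ j, t j * φ j p0, ?_, ?_, ?_⟩
  · intro y hy
    rw [add_apply, sum_app]
    congr 1
    exact Finset.sum_congr rfl fun j _ => by rw [h1 j y hy]
  · intro i hi
    rw [add_apply, sum_app]
    have h3 : ∑ j, t j * φ j (a i) = ∑ j, t j * φ j p0 + t i := by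
      have h4 : ∀ j, t j * φ j (a i) = t j * φ j p0 + t j * (if j = i then 1 else 0) := by
        intro j
        rw [← h2 j i]; ring
      simp only [h4, Finset.sum_add_distrib]
      simp
    rw [h3]
    have h5 : t i = M - l (a i) := if_pos hi
    rw [h5]; ring
  · intro i hi
    rw [add_apply, sum_app]
    have h3 : ∑ j, t j * φ j (a i) = ∑ j, t j * φ j p0 + t i := by
      have h4 : ∀ j, t j * φ j (a i) = t j * φ j p0 + t j * (if j = i then 1 else 0) := by
        intro j
        rw [← h2 j i]; ring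
      simp only [h4, Finset.sum_add_distrib]
      simp
    rw [h3]
    have h5 : t i = M - l (a i) - 1 := if_neg hi
    rw [h5]; linarith

/-- the points of the free summand: the apexes recentred at `p0` -/
noncomputable def shifted (p0 : Sp N) (a : Fin m → Sp N) (i : Fin m) : Sp N :=
  a i - (m : ℝ)⁻¹ • ∑ j, (a j - p0)

lemma ext_sum (hm : 0 < m) (h1 : ∀ i, ∀ y ∈ P, φ i y = φ i p0)
    (h2 : ∀ i j, φ i (a j) - φ i p0 = if i = j then 1 else 0) : Ext P p0 (shifted p0 a) := by
  classical
  intro l M hle hp0 J hJ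
  have hm' : (0 : ℝ) < m := by exact_mod_cast hm
  have hJcard : J.card < m := by
    have h3 := Finset.card_lt_univ_of_notMem (s := J) (x := (by
      have h4 : ∃ x, x ∉ J := by
        by_contra hcon
        push Not at hcon
        exact hJ (Finset.eq_univ_iff_forall.2 hcon)
      exact h4.choose)) (by
      exact Exists.choose_spec (p := fun x => x ∉ J) _)
    simpa using h3
  have hJr : (0 : ℝ) < m - J.card := by
    have : (J.card : ℝ) < m := by exact_mod_cast hJcard
    linarith
  set s : ℝ := m * (M - l p0) / (m - J.card) with hs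
  have hspos : 0 < s := div_pos (mul_pos hm' (by linarith)) hJr
  let b := shifted p0 a
  have hb : ∑ i, b i = (m : ℝ) • p0 := by
    show ∑ i, (a i - (m : ℝ)⁻¹ • ∑ j, (a j - p0)) = _
    rw [Finset.sum_sub_distrib, Finset.sum_const, Finset.card_univ, Fintype.card_fin,
      ← Nat.cast_smul_eq_nsmul ℝ, smul_smul, mul_inv_cancel₀ hm'.ne', one_smul,
      Finset.sum_sub_distrib, Finset.sum_const, Finset.card_univ, Fintype.card_fin,
      ← Nat.cast_smul_eq_nsmul ℝ]
    abel
  let σ : Fin m → ℝ := fun i => if i ∈ J then M else M - s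
  have hσ : ∑ i, σ i = m * l p0 := by
    have h3 : ∀ i, σ i = M - (if i ∈ J then 0 else s) := by
      intro i
      show (if i ∈ J then M else M - s) = _
      split_ifs <;> ring
    simp only [h3, Finset.sum_sub_distrib]
    rw [Finset.sum_const, Finset.card_univ, Fintype.card_fin, nsmul_eq_mul]
    have h4 : ∑ i, (if i ∈ J then 0 else s) = (m - J.card) * s := by
      have h5 : ∑ i, (if i ∈ J then 0 else s) = ∑ i : Fin m, s - ∑ i ∈ J, s := by
        have h6 : ∑ i ∈ J, s = ∑ i, (if i ∈ J then s else 0) := by simp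
        rw [eq_sub_iff_add_eq, h6, ← Finset.sum_add_distrib]
        refine Finset.sum_congr rfl fun i _ => ?_
        split_ifs <;> simp
      rw [h5]
      simp only [Finset.sum_const, Finset.card_univ, Fintype.card_fin, nsmul_eq_mul]
      ring
    rw [h4, hs]
    field_simp
    ring
  let t : Fin m → ℝ := fun i => σ i - l (b i)
  have ht : ∑ i, t i = 0 := by
    show ∑ i, (σ i - l (b i)) = 0
    rw [Finset.sum_sub_distrib, hσ, ← map_sum, hb, map_smul, smul_eq_mul, sub_self]
  have hφb : ∀ j i, φ j (b i) = φ j p0 + (if j = i then 1 else 0) - (m : ℝ)⁻¹ := by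
    intro j i
    show φ j (a i - (m : ℝ)⁻¹ • ∑ k, (a k - p0)) = _
    rw [map_sub, map_smul, map_sum]
    have h3 : ∑ k, φ j (a k - p0) = 1 := by
      have h4 : ∀ k, φ j (a k - p0) = if j = k then 1 else 0 := by
        intro k
        rw [map_sub, h2]
      simp only [h4]
      simp
    rw [h3, smul_eq_mul, mul_one, ← h2 j i]
    ring
  have hkey : ∀ i, (l + ∑ j, t j • φ j) (b i) = σ i + ∑ j, t j * φ j p0 := by
    intro i
    rw [add_apply, sum_app]
    have h3 : ∑ j, t j * φ j (b i) = ∑ j, t j * φ j p0 + t i := by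
      have h4 : ∀ j, t j * φ j (b i) =
          t j * φ j p0 + t j * (if j = i then 1 else 0) - t j * (m : ℝ)⁻¹ := by
        intro j
        rw [hφb]; ring
      simp only [h4, Finset.sum_add_distrib, Finset.sum_sub_distrib, ← Finset.sum_mul, ht]
      simp
    rw [h3]
    show l (b i) + (∑ j, t j * φ j p0 + (σ i - l (b i))) = _
    ring
  refine ⟨l + ∑ j, t j • φ j, ∑ j, t j * φ j p0, ?_, ?_, ?_⟩
  · intro y hy
    rw [add_apply, sum_app]
    congr 1
    exact Finset.sum_congr rfl fun j _ => by rw [h1 j y hy]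
  · intro i hi
    have h3 := hkey i
    have h4 : σ i = M := if_pos hi
    rw [h4] at h3
    exact h3
  · intro i hi
    have h3 := hkey i
    have h4 : σ i = M - s := if_neg hi
    rw [h4] at h3
    show (l + ∑ j, t j • φ j) (b i) < _
    rw [h3]
    linarith

/-- the direction of the affine hull -/
lemma vs_hull (hp0 : p0 ∈ P) (c : Fin m → Sp N) :
    vectorSpan ℝ (convexHull ℝ (P ∪ Set.range c)) =
      vectorSpan ℝ P ⊔ Submodule.span ℝ (Set.range fun j => c j - p0) := by
  rw [← direction_affineSpan, affineSpan_convexHull, direction_affineSpan]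
  apply le_antisymm
  · set W := vectorSpan ℝ P ⊔ Submodule.span ℝ (Set.range fun j => c j - p0) with hW
    have hAB : ∀ y ∈ P ∪ Set.range c, y - p0 ∈ W := by
      rintro y (hy | ⟨j, rfl⟩)
      · exact Submodule.mem_sup_left (vsub_mem_vectorSpan ℝ hy hp0)
      · exact Submodule.mem_sup_right (Submodule.subset_span ⟨j, rfl⟩)
    unfold vectorSpan
    rw [Submodule.span_le]
    rintro v ⟨y, hy, z, hz, rfl⟩
    have h1 : (y - p0) - (z - p0) ∈ W := W.sub_mem (hAB y hy) (hAB z hz)
    have h2 : (y - p0) - (z - p0) = y - z := by abel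
    rw [h2] at h1
    exact h1
  · apply sup_le
    · exact vectorSpan_mono ℝ Set.subset_union_left
    · rw [Submodule.span_le]
      rintro _ ⟨j, rfl⟩
      exact vsub_mem_vectorSpan ℝ (Or.inr ⟨j, rfl⟩) (Or.inl hp0)

lemma dim_pyramid (hp0 : p0 ∈ P) (h1 : ∀ i, ∀ y ∈ P, φ i y = φ i p0)
    (h2 : ∀ i j, φ i (a j) - φ i p0 = if i = j then 1 else 0) :
    dim (convexHull ℝ (P ∪ Set.range a)) = dim P + m := by
  unfold dim
  rw [vs_hull hp0]
  have h2' : ∀ i j, φ i (a j - p0) = if i = j then 1 else 0 := by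
    intro i j
    rw [map_sub, h2]
  have hli : LinearIndependent ℝ fun j => a j - p0 := by
    rw [Fintype.linearIndependent_iff]
    intro g hg i
    have h3 := congrArg (φ i) hg
    rw [map_sum, map_zero] at h3
    simp only [map_smul, h2', smul_eq_mul] at h3
    simpa using h3
  have h4 : Module.finrank ℝ (Submodule.span ℝ (Set.range fun j => a j - p0)) = m := by
    rw [finrank_span_eq_card hli, Fintype.card_fin]
  have h5 : vectorSpan ℝ P ⊓ Submodule.span ℝ (Set.range fun j => a j - p0) = ⊥ := by
    rw [Submodule.eq_bot_iff]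
    rintro x ⟨hx1, hx2⟩
    obtain ⟨g, rfl⟩ := (Submodule.mem_span_range_iff_exists_fun ℝ).1 hx2
    have h6 : ∀ i, g i = 0 := by
      intro i
      have h7 : vectorSpan ℝ P ≤ LinearMap.ker (φ i).toLinearMap := by
        unfold vectorSpan
        rw [Submodule.span_le]
        rintro v ⟨y, hy, z, hz, rfl⟩
        simp only [vsub_eq_sub, SetLike.mem_coe, LinearMap.mem_ker, map_sub]
        show φ i y - φ i z = 0
        rw [h1 i y hy, h1 i z hz, sub_self]
      have h8 : φ i (∑ j, g j • (a j - p0)) = 0 := h7 hx1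
      rw [map_sum] at h8
      simp only [map_smul, h2', smul_eq_mul] at h8
      simpa using h8
    simp [h6]
  have h6 := Submodule.finrank_sup_add_finrank_inf_eq (vectorSpan ℝ P)
    (Submodule.span ℝ (Set.range fun j => a j - p0))
  rw [h5, finrank_bot, h4] at h6
  omega

lemma dim_sum (hm : 0 < m) (hp0 : p0 ∈ P) (h1 : ∀ i, ∀ y ∈ P, φ i y = φ i p0)
    (h2 : ∀ i j, φ i (a j) - φ i p0 = if i = j then 1 else 0) :
    dim (convexHull ℝ (P ∪ Set.range (shifted p0 a))) + 1 = dim P + m := by
  have hm' : (0 : ℝ) < m := by exact_mod_cast hm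
  have h2' : ∀ i j, φ i (a j - p0) = if i = j then 1 else 0 := by
    intro i j
    rw [map_sub, h2]
  have hU := dim_pyramid hp0 h1 h2
  unfold dim at hU ⊢
  rw [vs_hull hp0] at hU ⊢
  set U := vectorSpan ℝ P ⊔ Submodule.span ℝ (Set.range fun j => a j - p0) with hUdef
  set W := vectorSpan ℝ P ⊔ Submodule.span ℝ (Set.range fun j => shifted p0 a j - p0) with hW
  set abar : Sp N := (m : ℝ)⁻¹ • ∑ j, (a j - p0) with habar
  have habarU : abar ∈ U := by
    apply Submodule.mem_sup_right
    apply Submodule.smul_mem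
    apply Submodule.sum_mem
    intro j _
    exact Submodule.subset_span ⟨j, rfl⟩
  have hsh : ∀ j, shifted p0 a j - p0 = (a j - p0) - abar := by
    intro j
    show a j - abar - p0 = _
    abel
  have hWU : W ≤ U := by
    apply sup_le le_sup_left
    rw [Submodule.span_le]
    rintro _ ⟨j, rfl⟩
    show shifted p0 a j - p0 ∈ U
    rw [hsh]
    exact U.sub_mem (Submodule.mem_sup_right (Submodule.subset_span ⟨j, rfl⟩)) habarU
  have hnot : abar ∉ W := by
    intro hmem
    have h7 : W ≤ LinearMap.ker (∑ j, φ j).toLinearMap := by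
      apply sup_le
      · unfold vectorSpan
        rw [Submodule.span_le]
        rintro v ⟨y, hy, z, hz, rfl⟩
        simp only [vsub_eq_sub, SetLike.mem_coe, LinearMap.mem_ker, map_sub]
        show (∑ j, φ j) y - (∑ j, φ j) z = 0
        have h8 : ∀ y ∈ P, (∑ j, φ j) y = ∑ j, φ j p0 := by
          intro y hy
          rw [_root_.sum_apply]
          exact Finset.sum_congr rfl fun j _ => h1 j y hy
        rw [h8 y hy, h8 z hz, sub_self]
      · rw [Submodule.span_le]
        rintro _ ⟨i, rfl⟩
        show (∑ j, φ j) (shifted p0 a i - p0) = 0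
        rw [hsh, map_sub, _root_.sum_apply, habar, map_smul, map_sum]
        simp only [_root_.sum_apply, h2']
        simp
        field_simp
        simp
    have h8 : (∑ j, φ j) abar = 0 := h7 hmem
    rw [habar, map_smul, map_sum] at h8
    simp only [_root_.sum_apply, h2'] at h8
    simp at h8
    omega
  have hlt : Module.finrank ℝ W < Module.finrank ℝ U := by
    apply Submodule.finrank_lt_finrank_of_lt
    refine lt_of_le_of_ne hWU fun h => hnot ?_
    rw [h]; exact habarU
  have hle : Module.finrank ℝ U ≤ Module.finrank ℝ W + 1 := by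
    have h8 : U ≤ W ⊔ Submodule.span ℝ {abar} := by
      apply sup_le
      · exact le_sup_left.trans le_sup_left
      · rw [Submodule.span_le]
        rintro _ ⟨j, rfl⟩
        show a j - p0 ∈ W ⊔ Submodule.span ℝ {abar}
        have h9 : a j - p0 = (shifted p0 a j - p0) + abar := by
          rw [hsh]; abel
        rw [h9]
        apply Submodule.add_mem
        · exact Submodule.mem_sup_left (Submodule.mem_sup_right (Submodule.subset_span ⟨j, rfl⟩))
        · exact Submodule.mem_sup_right (Submodule.mem_span_singleton_self _)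
    have h9 := Submodule.finrank_mono h8
    have h10 := Submodule.finrank_add_le_finrank_add_finrank W (Submodule.span ℝ {abar})
    have h11 : Module.finrank ℝ (Submodule.span ℝ {abar}) ≤ 1 := by
      have := finrank_span_finset_le_card (R := ℝ) ({abar} : Finset (Sp N))
      rw [Finset.coe_singleton, Finset.card_singleton] at this
      exact this
    omega
  omega

end ext

/-- For every polytope `P` of dimension at least two and every `m ≥ 3`, the graph of the `m`-fold
pyramid with basis `P`, a polytope of dimension `dim P + m`, is isomorphic to the graph of a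
polytope of dimension `dim P + m - 1`. -/
theorem result (N m : ℕ) (P Q : Set (Sp N)) (hP : IsPolytope P) (hne : P.Nonempty)
    (hd : 2 ≤ dim P) (hm : 3 ≤ m) (hQ : IsIteratedPyramid m P Q) :
    IsPolytope Q ∧ dim Q = dim P + m ∧
      ∃ R : Set (Sp N), IsPolytope R ∧ dim R = dim P + m - 1 ∧
        Nonempty (graph Q ≃g graph R) := by
  classical
  have hPc : Convex ℝ P := by
    obtain ⟨S, rfl⟩ := hP
    exact convex_convexHull ℝ _
  have hp0 := center_mem hP hne
  obtain ⟨a, φ, rfl, h1, h2⟩ := iter_data hPc hp0 m Q hQ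
  have hpoly : ∀ c : Fin m → Sp N, IsPolytope (convexHull ℝ (P ∪ Set.range c)) := by
    intro c
    obtain ⟨S, hS⟩ := hP
    refine ⟨S ∪ Finset.univ.image c, ?_⟩
    rw [hS]
    apply Set.Subset.antisymm
    · apply convexHull_min _ (convex_convexHull ℝ _)
      rintro y (hy | ⟨j, rfl⟩)
      · exact convexHull_mono (by simp) hy
      · exact subset_convexHull ℝ _ (by simp)
    · apply convexHull_mono
      intro y hy
      simp only [Finset.coe_union, Finset.coe_image, Finset.coe_univ, Set.image_univ] at hy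
      rcases hy with hy | hy
      · exact Or.inl (subset_convexHull ℝ _ hy)
      · exact Or.inr hy
  obtain ⟨e1⟩ := good_iso hP hd hm (ext_pyramid h1 h2)
  obtain ⟨e2⟩ := good_iso hP hd hm (ext_sum (by omega) h1 h2)
  refine ⟨hpoly a, dim_pyramid hp0 h1 h2, _, hpoly (shifted (center P) a), ?_, ⟨e1.trans e2.symm⟩⟩
  have := dim_sum (by omega : 0 < m) hp0 h1 h2
  omega

end Pool.Agent.Results.MP_1e46c9_co.FreeSum
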